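import Mathlib

/-!
# Decomposable circuits (nonuniform grammars) which generate sets of words
-/

set_option autoImplicit false

namespace Pool.Agent.Q163.DC

open Finset

/-- A decomposable circuit over the coordinates `ι` with the gates `V`. The gate `v` has the set
`I v` of coordinates. It generates some words given by `base v` if it has at most one coordinate, and
the joins of the words generated by `u` and `w` for all `u`, `w` with `rule v u w`; then the
coordinates of `v` are the disjoint union of those of `u` and `w`. All words are functions on `ι`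
which vanish outside the coordinates of the gate. -/
structure Circuit (ι V : Type) [DecidableEq ι] where
  I : V → Finset ι
  base : V → (ι → Bool) → Prop
  rule : V → V → V → Prop
  base_card : ∀ v x, base v x → (I v).card ≤ 1
  base_supp : ∀ v x, base v x → ∀ i, x i = true → i ∈ I v
  rule_disj : ∀ v u w, rule v u w → Disjoint (I u) (I w)
  rule_union : ∀ v u w, rule v u w → I v = I u ∪ I w

/-- the join of two words -/
def join {ι : Type} (x y : ι → Bool) : ι → Bool := fun i => x i || y i

theorem join_comm {ι : Type} (x y : ι → Bool) : join x y = join y x := by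
  funext i; simp [join, Bool.or_comm]

theorem join_assoc {ι : Type} (x y z : ι → Bool) : join (join x y) z = join x (join y z) := by
  funext i; simp [join, Bool.or_assoc]

theorem join_false {ι : Type} (x : ι → Bool) : join (fun _ => false) x = x := by
  funext i; simp [join]

/-- the words generated by a gate -/
inductive Gen {ι V : Type} [DecidableEq ι] (G : Circuit ι V) : V → (ι → Bool) → Prop
  | base {v x} : G.base v x → Gen G v x
  | rule {v u w x y} : G.rule v u w → Gen G u x → Gen G w y → Gen G v (join x y)

variable {ι V : Type} [DecidableEq ι]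

theorem Gen.supp {G : Circuit ι V} {v : V} {x : ι → Bool} (h : Gen G v x) :
    ∀ i, x i = true → i ∈ G.I v := by
  induction h with
  | base h => exact G.base_supp _ _ h
  | rule h _ _ ih1 ih2 =>
    intro i hi
    rw [G.rule_union _ _ _ h, mem_union]
    simp only [join, Bool.or_eq_true] at hi
    exact hi.imp (ih1 i) (ih2 i)

/-- the circuit with a hole at the gate `a` -/
def ctx (G : Circuit ι V) (a : V) : Circuit ι (V ⊕ V) where
  I := fun v => match v with
    | .inl v => G.I v
    | .inr v => G.I v \ G.I a
  base := fun v x => match v with
    | .inl v => G.base v x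
    | .inr v => v = a ∧ x = fun _ => false
  rule := fun v u w => match v, u, w with
    | .inl v, .inl u, .inl w => G.rule v u w
    | .inr v, .inr u, .inl w => G.rule v u w ∧ G.I a ⊆ G.I u
    | .inr v, .inl u, .inr w => G.rule v u w ∧ G.I a ⊆ G.I w
    | _, _, _ => False
  base_card := by
    rintro (v | v) x h
    · exact G.base_card _ _ h
    · obtain ⟨rfl, -⟩ := h
      simp
  base_supp := by
    rintro (v | v) x h i hi
    · exact G.base_supp _ _ h i hi
    · obtain ⟨-, rfl⟩ := h
      simp at hi
  rule_disj := by
    rintro (v | v) (u | u) (w | w) h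
    · exact G.rule_disj _ _ _ h
    · exact absurd h id
    · exact absurd h id
    · exact absurd h id
    · exact absurd h id
    · exact (G.rule_disj _ _ _ h.1).mono_right sdiff_subset
    · exact (G.rule_disj _ _ _ h.1).mono_left sdiff_subset
    · exact absurd h id
  rule_union := by
    rintro (v | v) (u | u) (w | w) h
    · exact G.rule_union _ _ _ h
    · exact absurd h id
    · exact absurd h id
    · exact absurd h id
    · exact absurd h id
    · have h1 := G.rule_disj _ _ _ h.1
      have h2 := G.rule_union _ _ _ h.1
      show G.I v \ G.I a = G.I u ∪ (G.I w \ G.I a)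
      rw [h2, union_sdiff_distrib, sdiff_eq_self_of_disjoint (h1.mono_right h.2)]
    · have h1 := G.rule_disj _ _ _ h.1
      have h2 := G.rule_union _ _ _ h.1
      show G.I v \ G.I a = (G.I u \ G.I a) ∪ G.I w
      rw [h2, union_sdiff_distrib, sdiff_eq_self_of_disjoint (h1.symm.mono_right h.2)]
    · exact absurd h id

theorem Gen.inl {G : Circuit ι V} {a v : V} {x : ι → Bool} (h : Gen G v x) :
    Gen (ctx G a) (.inl v) x := by
  induction h with
  | base h => exact .base (show (ctx G a).base (.inl _) _ from h)
  | rule h _ _ ih1 ih2 => exact .rule (show (ctx G a).rule (.inl _) (.inl _) (.inl _) from h) ih1 ih2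

theorem plug_aux {G : Circuit ι V} {a : V} {v : V ⊕ V} {y : ι → Bool} (h : Gen (ctx G a) v y) :
    match v with
    | .inl v => Gen G v y
    | .inr v => ∀ z, Gen G a z → Gen G v (join y z) := by
  induction h with
  | @base v x h =>
    rcases v with v | v
    · exact .base h
    · obtain ⟨rfl, rfl⟩ := h
      intro z hz
      rw [join_false]
      exact hz
  | @rule v u w x y h h1 h2 ih1 ih2 =>
    rcases v with v | v <;> rcases u with u | u <;> rcases w with w | w
    · exact .rule h ih1 ih2
    · exact absurd h id
    · exact absurd h id
    · exact absurd h id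
    · exact absurd h id
    · intro z hz
      rw [join_assoc]
      exact .rule h.1 ih1 (ih2 z hz)
    · intro z hz
      rw [join_assoc, join_comm y z, ← join_assoc]
      exact .rule h.1 (ih1 z hz) ih2
    · exact absurd h id

theorem plug {G : Circuit ι V} {a v : V} {y z : ι → Bool} (h : Gen (ctx G a) (.inr v) y)
    (hz : Gen G a z) : Gen G v (join y z) := plug_aux h z hz

/-- a word with many coordinates passes a gate of medium size -/
theorem split {G : Circuit ι V} {d : ℕ} (hd : 1 ≤ d) {v : V} {x : ι → Bool} (h : Gen G v x)
    (hv : 2 * d < (G.I v).card) : ∃ a, d < (G.I a).card ∧ (G.I a).card ≤ 2 * d ∧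
      G.I a ⊆ G.I v ∧ ∃ y z, Gen (ctx G a) (.inr v) y ∧ Gen G a z ∧ x = join y z := by
  induction h with
  | base h =>
    have := G.base_card _ _ h
    omega
  | @rule v u w x y h h1 h2 ih1 ih2 =>
    have hun := G.rule_union _ _ _ h
    have hu : G.I u ⊆ G.I v := by rw [hun]; exact subset_union_left
    have hw : G.I w ⊆ G.I v := by rw [hun]; exact subset_union_right
    by_cases c1 : 2 * d < (G.I u).card
    · obtain ⟨a, ha1, ha2, ha3, y', z', hy, hz, he⟩ := ih1 c1
      refine ⟨a, ha1, ha2, ha3.trans hu, join y' y, z', ?_, hz, ?_⟩
      · exact .rule (show (ctx G a).rule (.inr v) (.inr u) (.inl w) from ⟨h, ha3⟩) hy h2.inl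
      · rw [he, join_assoc, join_comm z' y, ← join_assoc]
    · by_cases c2 : 2 * d < (G.I w).card
      · obtain ⟨a, ha1, ha2, ha3, y', z', hy, hz, he⟩ := ih2 c2
        refine ⟨a, ha1, ha2, ha3.trans hw, join x y', z', ?_, hz, ?_⟩
        · exact .rule (show (ctx G a).rule (.inr v) (.inl u) (.inr w) from ⟨h, ha3⟩) h1.inl hy
        · rw [he, join_assoc]
      · have hc : (G.I v).card = (G.I u).card + (G.I w).card := by
          rw [hun, card_union_of_disjoint (G.rule_disj _ _ _ h)]
        by_cases c3 : d < (G.I u).card
        · refine ⟨u, c3, by omega, hu, join (fun _ => false) y, x, ?_, h1, ?_⟩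
          · exact .rule (show (ctx G u).rule (.inr v) (.inr u) (.inl w) from ⟨h, Subset.refl _⟩)
              (.base (show (ctx G u).base (.inr u) _ from ⟨rfl, rfl⟩)) h2.inl
          · rw [join_false, join_comm]
        · refine ⟨w, by omega, by omega, hw, join x (fun _ => false), y, ?_, h2, ?_⟩
          · exact .rule (show (ctx G w).rule (.inr v) (.inl u) (.inr w) from ⟨h, Subset.refl _⟩)
              h1.inl (.base (show (ctx G w).base (.inr w) _ from ⟨rfl, rfl⟩))
          · rw [join_comm x (fun _ => false), join_false]

end Pool.Agent.Q163.DC
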