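import Pool.Agent.Q163.DC.Lower

/-!
# Codes generated by decomposable circuits: both bounds
-/

set_option autoImplicit false

namespace Pool.Agent.Q163.DC

open Finset Filter Topology

theorem Far.mono {ι : Type} [DecidableEq ι] [Fintype ι] {d d' : ℕ} {S : Finset (ι → Bool)}
    (h : Far d S) (hd : d' ≤ d) : Far d' S :=
  fun x hx y hy hxy => hd.trans (h x hx y hy hxy)

theorem Generates.mono {n m m' : ℕ} {C : Finset (Fin n → Bool)} (h : Generates m C) (hm : m ≤ m') :
    Generates m' C := by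
  obtain ⟨V, _, G, r, h1, h2⟩ := h
  exact ⟨V, _, G, r, h1.trans hm, h2⟩

theorem upper_bound {n d k m : ℕ} (hd : 1 ≤ d) (hn : n ≤ (k + 2) * d) {C : Finset (Fin n → Bool)}
    (hC : Far d C) (hG : Generates m C) :
    C.card ≤ (4 * d) ^ (k + 1) * 2 ^ (k * k) * m ^ k := by
  classical
  obtain ⟨V, _, G, r, hV, hg⟩ := hG
  have h1 : C = lang G r := by
    ext x
    rw [hg, mem_lang]
  have h2 : (G.I r).card ≤ 2 * d + k * (d + 1) := by
    have h3 : (G.I r).card ≤ n := by
      have := card_le_univ (G.I r)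
      rwa [Fintype.card_fin] at this
    nlinarith
  have h4 := upper hd k V G r h2 (by rw [← h1]; exact hC)
  rw [h1]
  calc (lang G r).card ≤ (4 * d) ^ (k + 1) * Fintype.card V ^ k * 2 ^ (k * k) := h4
    _ ≤ (4 * d) ^ (k + 1) * m ^ k * 2 ^ (k * k) :=
        Nat.mul_le_mul_right _ (Nat.mul_le_mul_left _ (Nat.pow_le_pow_left hV k))
    _ = _ := by ring

/-- words on `Fin l` as words on the natural numbers -/
theorem hamming_filter {l : ℕ} (x y : Fin l → Bool) :
    hammingDist x y ≤ ((range l).filter fun j =>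
      (if h : j < l then x ⟨j, h⟩ else false) ≠ (if h : j < l then y ⟨j, h⟩ else false)).card := by
  classical
  rw [hammingDist, ← card_map Fin.valEmbedding]
  refine card_le_card fun a ha => ?_
  rw [Finset.mem_map] at ha
  obtain ⟨i, hi, rfl⟩ := ha
  rw [mem_filter] at hi ⊢
  refine ⟨mem_range.2 i.2, ?_⟩
  simpa using hi.2

theorem lower_bound (k : ℕ) {ε : ℝ} (hε : 0 < ε) :
    ∃ c : ℝ, 0 < c ∧ ∀ n d s : ℕ, 1 ≤ d → (k + 1 + ε) * d ≤ n → 1 ≤ s →
      (s : ℝ) ≤ 2 ^ (c * d) →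
      ∃ C : Finset (Fin n → Bool), Far d C ∧ C.card = s ^ k ∧ Generates (6 * n * s) C := by
  classical
  set ε' : ℝ := min ε 1 with hε'
  have hε0 : 0 < ε' := lt_min hε one_pos
  have hε1 : ε' ≤ 1 := min_le_right _ _
  have hεε : ε' ≤ ε := min_le_left _ _
  set e : ℝ := ε' / (2 * (k + 1)) with he
  have hk0 : (0 : ℝ) < k + 1 := by positivity
  have he0 : 0 < e := by positivity
  have he1 : e ≤ 1 / 2 := by
    rw [he, div_le_iff₀ (by positivity)]
    have : (0 : ℝ) ≤ k := Nat.cast_nonneg k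
    nlinarith
  have hek : 2 * (k + 1) * e = ε' := by
    rw [he]; field_simp
  set η : ℝ := e / 4 with hη
  refine ⟨2 * η ^ 2, by positivity, ?_⟩
  intro n d s hd hn hs hsc
  have hd' : (1 : ℝ) ≤ d := by exact_mod_cast hd
  have hn1 : ((k : ℝ) + 1) * d ≤ n := by
    have : 0 ≤ ε * d := by positivity
    nlinarith
  have hn2 : (k + 1) * d ≤ n := by exact_mod_cast hn1
  have hn3 : k + 1 ≤ n := le_trans (by nlinarith) hn2
  set l : ℕ := n / (k + 1) with hl
  have htl : (k + 1) * l ≤ n := by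
    rw [hl]; exact Nat.mul_div_le n (k + 1)
  have : NeZero s := ⟨by omega⟩
  -- the block code
  obtain ⟨W, hW⟩ : ∃ W : ZMod s → ℕ → Bool, ∀ g h, g ≠ h →
      (d - 1) / 2 + 1 ≤ ((range l).filter fun j => W g j ≠ W h j).card := by
    rcases Nat.lt_or_ge s 2 with h2 | h2
    · have h1 : s = 1 := by omega
      subst h1
      exact ⟨fun _ _ => false, fun g h hgh => absurd (Subsingleton.elim g h) hgh⟩
    · have h3 : 1 ≤ 2 * η ^ 2 * d := by
        by_contra hcon
        push Not at hcon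
        have h4 : (2 : ℝ) ^ (2 * η ^ 2 * (d : ℝ)) < 2 ^ (1 : ℝ) :=
          Real.rpow_lt_rpow_of_exponent_lt (by norm_num) hcon
        rw [Real.rpow_one] at h4
        have h5 : (2 : ℝ) ≤ s := by exact_mod_cast h2
        linarith
      have h4 : 1 ≤ e * d := by
        have h5 : 2 * η ^ 2 ≤ e := by rw [hη]; nlinarith
        calc (1 : ℝ) ≤ 2 * η ^ 2 * d := h3
          _ ≤ e * d := mul_le_mul_of_nonneg_right h5 (by linarith)
      have h5 : (1 + e) * d ≤ l := by
        have h6 : n < (k + 1) * (l + 1) := by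
          rw [hl]
          exact Nat.lt_mul_div_succ n (by omega)
        have h7 : (n : ℝ) < (k + 1) * (l + 1) := by exact_mod_cast h6
        have h8 : (k + 1 + ε') * d ≤ n := by
          have : ε' * d ≤ ε * d := mul_le_mul_of_nonneg_right hεε (by linarith)
          nlinarith
        have h9 : ((k : ℝ) + 1) * ((1 + 2 * e) * d) < (k + 1) * (l + 1) := by
          calc ((k : ℝ) + 1) * ((1 + 2 * e) * d) = (k + 1 + 2 * (k + 1) * e) * d := by ring
            _ = (k + 1 + ε') * d := by rw [hek]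
            _ ≤ n := h8
            _ < _ := h7
        have h10 : (1 + 2 * e) * d < l + 1 := lt_of_mul_lt_mul_left h9 hk0.le
        nlinarith
      have h6 : (((d - 1) / 2 : ℕ) : ℝ) ≤ (1 / 2 - η) * l := by
        have h7 : (((d - 1) / 2 : ℕ) : ℝ) ≤ d / 2 := by
          have h8 : ((d - 1) / 2 : ℕ) * 2 ≤ d := by omega
          have h9 : (((d - 1) / 2 : ℕ) : ℝ) * 2 ≤ d := by exact_mod_cast h8
          linarith
        have h8 : (d : ℝ) / 2 ≤ (1 / 2 - η) * ((1 + e) * d) := by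
          rw [hη]
          have h9 : (1 / 2 - e / 4) * ((1 + e) * d) - d / 2 = d * e * (1 - e) / 4 := by ring
          have h10 : 0 ≤ (d : ℝ) * e * (1 - e) / 4 := by
            have : 0 ≤ 1 - e := by linarith
            positivity
          linarith
        have h9 : (1 / 2 - η) * ((1 + e) * d) ≤ (1 / 2 - η) * l :=
          mul_le_mul_of_nonneg_left h5 (by rw [hη]; linarith)
        linarith
      obtain ⟨S, hS, hSc⟩ := gilbert (by positivity : 0 ≤ η) h6
      have h7 : (s : ℝ) ≤ S.card := by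
        refine hsc.trans (le_trans ?_ hSc)
        rw [Real.rpow_def_of_pos (by norm_num), Real.exp_le_exp]
        have h8 : Real.log 2 ≤ 1 := by
          have := Real.log_two_lt_d9
          linarith
        have h9 : (d : ℝ) ≤ l := by nlinarith
        calc Real.log 2 * (2 * η ^ 2 * d) ≤ 1 * (2 * η ^ 2 * d) :=
              mul_le_mul_of_nonneg_right h8 (by positivity)
          _ ≤ 2 * η ^ 2 * l := by
              rw [one_mul]
              exact mul_le_mul_of_nonneg_left h9 (by positivity)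
      have h8 : Fintype.card (ZMod s) ≤ Fintype.card S := by
        rw [ZMod.card, Fintype.card_coe]
        exact_mod_cast h7
      obtain ⟨φ⟩ := Function.Embedding.nonempty_of_card_le h8
      refine ⟨fun g j => if h : j < l then (φ g).1 ⟨j, h⟩ else false, fun g h hgh => ?_⟩
      refine le_trans ?_ (hamming_filter _ _)
      refine hS _ (φ g).2 _ (φ h).2 fun hh => hgh (φ.injective (Subtype.ext hh))
  obtain ⟨C, h1, h2, h3⟩ := construction (n := n) W htl (by omega) hW
  refine ⟨C, h1.mono (by omega), h2, h3.mono ?_⟩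
  have h4 : (k + 1) * s * (l + 1) = s * ((k + 1) * l) + (k + 1) * s := by ring
  have h5 : s * ((k + 1) * l) ≤ s * n := Nat.mul_le_mul_left _ htl
  have h6 : (k + 1) * s ≤ n * s := Nat.mul_le_mul_right _ hn3
  have h7 : (k + 2) * s = (k + 1) * s + s := by ring
  have h8 : s ≤ n * s := Nat.le_mul_of_pos_left _ (by omega)
  have h9 : n ≤ n * s := Nat.le_mul_of_pos_right _ (by omega)
  have h10 : 6 * n * s = 6 * (n * s) := by ring
  have h11 : s * n = n * s := by ring
  omega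

/-- the largest size of a code with minimum distance at least `d` which is generated by a circuit
with at most `m` gates -/
noncomputable def best (n d m : ℕ) : ℕ := by
  classical
  exact (univ.filter fun C : Finset (Fin n → Bool) => Far d C ∧ Generates m C).sup card

theorem le_best {n d m : ℕ} {C : Finset (Fin n → Bool)} (h1 : Far d C) (h2 : Generates m C) :
    C.card ≤ best n d m := by
  classical
  unfold best
  exact Finset.le_sup (f := card) (mem_filter.2 ⟨mem_univ _, h1, h2⟩)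

theorem best_le {n d m B : ℕ} (h : ∀ C : Finset (Fin n → Bool), Far d C → Generates m C →
    C.card ≤ B) : best n d m ≤ B := by
  classical
  unfold best
  refine Finset.sup_le fun C hC => ?_
  rw [mem_filter] at hC
  exact h C hC.2.1 hC.2.2

theorem tendsto_log (a : ℝ) (ha : 0 < a) :
    Tendsto (fun n : ℕ => Real.logb 2 (a * n) / n) atTop (𝓝 0) := by
  have h1 : Tendsto (fun x : ℝ => Real.log x ^ 1 / (1 * x + 0)) atTop (𝓝 0) :=
    Real.tendsto_pow_log_div_mul_add_atTop 1 0 1 one_ne_zero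
  have h2 : Tendsto (fun n : ℕ => Real.log n / n) atTop (𝓝 0) := by
    have := h1.comp (tendsto_natCast_atTop_atTop (R := ℝ))
    simpa [Function.comp_def] using this
  have h3 : Tendsto (fun n : ℕ => Real.log a / (n : ℝ)) atTop (𝓝 0) :=
    tendsto_const_div_atTop_nhds_zero_nat _
  have h4 := (h3.add h2).mul_const (1 / Real.log 2)
  rw [add_zero, zero_mul] at h4
  refine h4.congr' ?_
  filter_upwards [eventually_ge_atTop 1] with n hn
  have hn' : (n : ℝ) ≠ 0 := by positivity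
  rw [Real.logb, Real.log_mul ha.ne' hn']
  ring

theorem rate_upper {δ : ℝ} (h0 : 0 < δ) (h1 : δ < 1 / 2) {σ : ℝ} (hσ : 0 ≤ σ) (k : ℕ)
    (hk : 1 / δ ≤ k + 2) {ε : ℝ} (hε : 0 < ε) :
    ∀ᶠ n : ℕ in atTop, Real.logb 2 (best n ⌈δ * n⌉₊ ⌊(2 : ℝ) ^ (σ * n)⌋₊) / n ≤ k * σ + ε := by
  have ht : Tendsto (fun n : ℕ => (k + 1) * (Real.logb 2 (4 * n) / n) + (k * k : ℝ) / n) atTop
      (𝓝 0) := by
    have h2 := (tendsto_log 4 (by norm_num)).const_mul ((k : ℝ) + 1)
    have h3 : Tendsto (fun n : ℕ => (k * k : ℝ) / (n : ℝ)) atTop (𝓝 0) :=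
      tendsto_const_div_atTop_nhds_zero_nat _
    simpa using h2.add h3
  filter_upwards [ht.eventually (gt_mem_nhds hε), eventually_ge_atTop 1] with n hn hn1
  have hn0 : (0 : ℝ) < n := by positivity
  set d : ℕ := ⌈δ * n⌉₊ with hd
  have hd1 : 1 ≤ d := Nat.one_le_iff_ne_zero.2 (by
    rw [hd, Ne, Nat.ceil_eq_zero, not_le]
    positivity)
  have hdn : d ≤ n := by
    rw [hd]
    refine Nat.ceil_le.2 ?_
    nlinarith
  have hnd : n ≤ (k + 2) * d := by
    have h2 : δ * n ≤ d := Nat.le_ceil _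
    have h3 : (n : ℝ) ≤ (k + 2) * d := by
      calc (n : ℝ) = 1 / δ * (δ * n) := by field_simp
        _ ≤ (k + 2) * (δ * n) := mul_le_mul_of_nonneg_right hk (by positivity)
        _ ≤ (k + 2) * d := mul_le_mul_of_nonneg_left h2 (by positivity)
    exact_mod_cast h3
  have hb : best n d ⌊(2 : ℝ) ^ (σ * n)⌋₊ ≤
      (4 * d) ^ (k + 1) * 2 ^ (k * k) * ⌊(2 : ℝ) ^ (σ * n)⌋₊ ^ k :=
    best_le fun C hC hG => upper_bound hd1 hnd hC hG
  have hpos : (0 : ℝ) < 2 ^ (σ * n) := Real.rpow_pos_of_pos two_pos _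
  have hb2 : (best n d ⌊(2 : ℝ) ^ (σ * n)⌋₊ : ℝ) ≤
      (4 * n) ^ (k + 1) * 2 ^ (k * k) * ((2 : ℝ) ^ (σ * n)) ^ k := by
    calc (best n d ⌊(2 : ℝ) ^ (σ * n)⌋₊ : ℝ)
        ≤ ((4 * d) ^ (k + 1) * 2 ^ (k * k) * ⌊(2 : ℝ) ^ (σ * n)⌋₊ ^ k : ℕ) := by
          exact_mod_cast hb
      _ = (4 * (d : ℝ)) ^ (k + 1) * 2 ^ (k * k) * (⌊(2 : ℝ) ^ (σ * n)⌋₊ : ℝ) ^ k := by
          push_cast; ring
      _ ≤ _ := by
          have h2 : (d : ℝ) ≤ n := by exact_mod_cast hdn
          have h3 : (⌊(2 : ℝ) ^ (σ * n)⌋₊ : ℝ) ≤ 2 ^ (σ * n) := Nat.floor_le hpos.le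
          gcongr
  have hlog : Real.logb 2 (best n d ⌊(2 : ℝ) ^ (σ * n)⌋₊) ≤
      (k + 1) * Real.logb 2 (4 * n) + k * k + k * (σ * n) := by
    have hR : Real.logb 2 ((4 * n) ^ (k + 1) * 2 ^ (k * k) * ((2 : ℝ) ^ (σ * n)) ^ k) =
        (k + 1) * Real.logb 2 (4 * n) + k * k + k * (σ * n) := by
      rw [Real.logb_mul (by positivity) (by positivity), Real.logb_mul (by positivity)
        (by positivity), Real.logb_pow, Real.logb_pow, Real.logb_pow, Real.logb_rpow two_pos
        (by norm_num), Real.logb_self_eq_one (by norm_num)]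
      push_cast
      ring
    rcases Nat.eq_zero_or_pos (best n d ⌊(2 : ℝ) ^ (σ * n)⌋₊) with h2 | h2
    · rw [h2, Nat.cast_zero, Real.logb_zero]
      have h3 : 0 ≤ Real.logb 2 (4 * n) := by
        refine Real.logb_nonneg (by norm_num) ?_
        have : (1 : ℝ) ≤ n := by exact_mod_cast hn1
        linarith
      positivity
    · rw [← hR]
      exact Real.logb_le_logb_of_le (by norm_num) (by exact_mod_cast h2) hb2
  calc Real.logb 2 (best n d ⌊(2 : ℝ) ^ (σ * n)⌋₊) / n
      ≤ ((k + 1) * Real.logb 2 (4 * n) + k * k + k * (σ * n)) / n :=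
        div_le_div_of_nonneg_right hlog hn0.le
    _ = ((k + 1) * (Real.logb 2 (4 * n) / n) + (k * k : ℝ) / n) + k * σ := by
        field_simp
    _ ≤ k * σ + ε := by linarith

theorem rate_lower {δ : ℝ} (h0 : 0 < δ) (k : ℕ) (hk : k + 1 < 1 / δ) :
    ∃ σ₀ : ℝ, 0 < σ₀ ∧ ∀ σ : ℝ, 0 < σ → σ ≤ σ₀ → ∀ ε > 0,
      ∀ᶠ n : ℕ in atTop, k * σ - ε ≤
        Real.logb 2 (best n ⌈δ * n⌉₊ ⌊(2 : ℝ) ^ (σ * n)⌋₊) / n := by
  set e : ℝ := (1 / δ - (k + 1)) / 2 with he
  have he0 : 0 < e := by rw [he]; linarith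
  obtain ⟨c, hc, H⟩ := lower_bound k he0
  refine ⟨c * δ, by positivity, fun σ hσ hσ' ε hε => ?_⟩
  have ht := (tendsto_log 12 (by norm_num)).const_mul (k : ℝ)
  rw [mul_zero] at ht
  filter_upwards [ht.eventually (gt_mem_nhds hε),
    (tendsto_log 12 (by norm_num)).eventually (gt_mem_nhds hσ), eventually_ge_atTop 1,
    eventually_ge_atTop ⌈1 / (e * δ ^ 2)⌉₊] with n hn hn' hn1 hn2
  have hn0 : (0 : ℝ) < n := by positivity
  have hn3 : 1 / (e * δ ^ 2) ≤ n := (Nat.le_ceil _).trans (by exact_mod_cast hn2)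
  set d : ℕ := ⌈δ * n⌉₊ with hd
  have hd1 : 1 ≤ d := Nat.one_le_iff_ne_zero.2 (by
    rw [hd, Ne, Nat.ceil_eq_zero, not_le]
    positivity)
  have hdle : (d : ℝ) ≤ δ * n + 1 := (Nat.ceil_lt_add_one (by positivity)).le
  have hdn : (k + 1 + e) * d ≤ n := by
    have hke : k + 1 + e = 1 / δ - e := by rw [he]; ring
    have h3 : 1 ≤ e * δ ^ 2 * n := by
      rw [div_le_iff₀ (by positivity)] at hn3
      linarith
    have h4 : 1 / δ ≤ e * δ * n := by
      rw [div_le_iff₀ h0]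
      nlinarith
    calc (k + 1 + e) * d ≤ (k + 1 + e) * (δ * n + 1) :=
          mul_le_mul_of_nonneg_left hdle (by positivity)
      _ = (1 / δ - e) * (δ * n + 1) := by rw [hke]
      _ = n - e * δ * n + 1 / δ - e := by
          field_simp
          ring
      _ ≤ n := by linarith
  have hpos : (0 : ℝ) < 2 ^ (σ * n) := Real.rpow_pos_of_pos two_pos _
  have h12 : 12 * (n : ℝ) ≤ 2 ^ (σ * n) := by
    rw [div_lt_iff₀ hn0, Real.logb_lt_iff_lt_rpow (by norm_num) (by positivity)] at hn'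
    exact hn'.le
  set s : ℕ := ⌊(2 : ℝ) ^ (σ * n) / (6 * n)⌋₊ with hs
  have hs2 : (2 : ℝ) ≤ 2 ^ (σ * n) / (6 * n) := by
    rw [le_div_iff₀ (by positivity)]
    linarith
  have hs3 : (2 : ℝ) ^ (σ * n) / (12 * n) ≤ s := by
    have h3 : (2 : ℝ) ^ (σ * n) / (6 * n) < s + 1 := Nat.lt_floor_add_one _
    have h4 : (2 : ℝ) ^ (σ * n) / (12 * n) = (2 : ℝ) ^ (σ * n) / (6 * n) / 2 := by
      field_simp
      norm_num
    rw [h4]
    linarith
  have hs1 : 1 ≤ s := by
    rw [hs]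
    exact Nat.le_floor (by push_cast; linarith)
  have hs4 : (s : ℝ) ≤ 2 ^ (σ * n) / (6 * n) := Nat.floor_le (by positivity)
  have hs5 : 6 * n * s ≤ ⌊(2 : ℝ) ^ (σ * n)⌋₊ := by
    refine Nat.le_floor ?_
    push_cast
    rw [le_div_iff₀ (by positivity)] at hs4
    linarith
  have hs6 : (s : ℝ) ≤ 2 ^ (c * d) := by
    have h3 : (2 : ℝ) ^ (σ * n) ≤ 2 ^ (c * d) := by
      refine Real.rpow_le_rpow_of_exponent_le (by norm_num) ?_
      calc σ * n ≤ c * δ * n := mul_le_mul_of_nonneg_right hσ' hn0.le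
        _ = c * (δ * n) := by ring
        _ ≤ c * d := mul_le_mul_of_nonneg_left (Nat.le_ceil _) hc.le
    have h4 : (2 : ℝ) ^ (σ * n) / (6 * n) ≤ 2 ^ (σ * n) := by
      have h5 : (1 : ℝ) ≤ n := by exact_mod_cast hn1
      exact div_le_self hpos.le (by linarith)
    linarith
  obtain ⟨C, hC1, hC2, hC3⟩ := H n d s hd1 hdn hs1 hs6
  have hb := le_best hC1 (hC3.mono hs5)
  rw [hC2] at hb
  have hb2 : ((2 : ℝ) ^ (σ * n) / (12 * n)) ^ k ≤ best n d ⌊(2 : ℝ) ^ (σ * n)⌋₊ := by
    calc ((2 : ℝ) ^ (σ * n) / (12 * n)) ^ k ≤ (s : ℝ) ^ k :=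
          pow_le_pow_left₀ (by positivity) hs3 _
      _ ≤ _ := by exact_mod_cast hb
  have hlog : k * (σ * n - Real.logb 2 (12 * n)) ≤
      Real.logb 2 (best n d ⌊(2 : ℝ) ^ (σ * n)⌋₊) := by
    have h3 := Real.logb_le_logb_of_le (b := 2) (by norm_num) (by positivity) hb2
    rw [Real.logb_pow, Real.logb_div hpos.ne' (by positivity), Real.logb_rpow two_pos
      (by norm_num)] at h3
    exact h3
  rw [le_div_iff₀ hn0]
  have h5 : k * (Real.logb 2 (12 * n) / n) * n = k * Real.logb 2 (12 * n) := by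
    field_simp
  nlinarith

end Pool.Agent.Q163.DC
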