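import Pool.Agent.Q163.DC.Upper

/-!
# Gilbert's bound near relative distance one half
-/

set_option autoImplicit false

namespace Pool.Agent.Q163.DC

open Finset

theorem sum_pow_dist {ℓ : ℕ} (x : Fin ℓ → Bool) (a : ℝ) :
    ∑ y : Fin ℓ → Bool, a ^ hammingDist x y = (1 + a) ^ ℓ := by
  classical
  have h : ∀ y : Fin ℓ → Bool, a ^ hammingDist x y = ∏ i, (if x i ≠ y i then a else 1) := by
    intro y
    rw [hammingDist, Finset.prod_ite, prod_const, prod_const_one, mul_one]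
  simp_rw [h]
  have h2 := Finset.prod_univ_sum (fun _ : Fin ℓ => (univ : Finset Bool))
    (fun i b => if x i ≠ b then a else (1 : ℝ))
  rw [Fintype.piFinset_univ] at h2
  rw [← h2]
  have h3 : ∀ i, ∑ b : Bool, (if x i ≠ b then a else 1) = 1 + a := by
    intro i
    rw [Fintype.sum_bool]
    cases x i <;> simp [add_comm]
  simp_rw [h3]
  simp

/-- a ball of radius at most `(1/2 - η) ℓ` is small -/
theorem ball_le {ℓ r : ℕ} {η : ℝ} (hη : 0 ≤ η) (hr : (r : ℝ) ≤ (1 / 2 - η) * ℓ)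
    (x : Fin ℓ → Bool) :
    ((univ.filter fun y : Fin ℓ → Bool => hammingDist x y ≤ r).card : ℝ) *
      Real.exp (2 * η ^ 2 * ℓ) ≤ 2 ^ ℓ := by
  classical
  set a : ℝ := Real.exp (-(4 * η)) with ha
  have ha0 : 0 < a := Real.exp_pos _
  have ha1 : a ≤ 1 := by
    rw [ha, Real.exp_le_one_iff]
    linarith
  have h1 : ((univ.filter fun y : Fin ℓ → Bool => hammingDist x y ≤ r).card : ℝ) * a ^ r ≤
      (1 + a) ^ ℓ := by
    rw [← sum_pow_dist x a, ← nsmul_eq_mul, ← Finset.sum_const]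
    calc ∑ y ∈ univ.filter (fun y : Fin ℓ → Bool => hammingDist x y ≤ r), a ^ r
        ≤ ∑ y ∈ univ.filter (fun y : Fin ℓ → Bool => hammingDist x y ≤ r),
            a ^ hammingDist x y := by
          refine Finset.sum_le_sum fun y hy => ?_
          rw [mem_filter] at hy
          exact pow_le_pow_of_le_one ha0.le ha1 hy.2
      _ ≤ ∑ y, a ^ hammingDist x y :=
          Finset.sum_le_sum_of_subset_of_nonneg (filter_subset _ _) fun y _ _ => by positivity
  have h2 : a ^ r = Real.exp (-(4 * η * r)) := by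
    rw [ha, ← Real.exp_nat_mul]
    congr 1
    ring
  have h3 : 1 + a ≤ 2 * Real.exp (-(2 * η) + 2 * η ^ 2) := by
    have h := Real.cosh_le_exp_half_sq (2 * η)
    rw [Real.cosh_eq] at h
    have e1 : a = Real.exp (-(2 * η)) * Real.exp (-(2 * η)) := by
      rw [ha, ← Real.exp_add]
      congr 1
      ring
    have e2 : (1 : ℝ) = Real.exp (-(2 * η)) * Real.exp (2 * η) := by
      rw [← Real.exp_add, neg_add_cancel, Real.exp_zero]
    have e3 : Real.exp (-(2 * η) + 2 * η ^ 2) =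
        Real.exp (-(2 * η)) * Real.exp ((2 * η) ^ 2 / 2) := by
      rw [← Real.exp_add]
      congr 1
      ring
    rw [e3]
    calc 1 + a = Real.exp (-(2 * η)) * Real.exp (2 * η) +
          Real.exp (-(2 * η)) * Real.exp (-(2 * η)) := by rw [← e2, ← e1]
      _ = 2 * (Real.exp (-(2 * η)) * ((Real.exp (2 * η) + Real.exp (-(2 * η))) / 2)) := by ring
      _ ≤ 2 * (Real.exp (-(2 * η)) * Real.exp ((2 * η) ^ 2 / 2)) := by
          have := Real.exp_pos (-(2 * η))
          nlinarith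
  have h4 : (1 + a) ^ ℓ ≤ 2 ^ ℓ * Real.exp (ℓ * (-(2 * η) + 2 * η ^ 2)) := by
    calc (1 + a) ^ ℓ ≤ (2 * Real.exp (-(2 * η) + 2 * η ^ 2)) ^ ℓ :=
          pow_le_pow_left₀ (by linarith) h3 _
      _ = _ := by rw [mul_pow, ← Real.exp_nat_mul]
  set B : ℝ := ((univ.filter fun y : Fin ℓ → Bool => hammingDist x y ≤ r).card : ℝ) with hB
  have hB0 : 0 ≤ B := Nat.cast_nonneg _
  have h5 : B ≤ 2 ^ ℓ * Real.exp (ℓ * (-(2 * η) + 2 * η ^ 2)) * Real.exp (4 * η * r) := by
    have h6 := mul_le_mul_of_nonneg_right (h1.trans h4) (Real.exp_pos (4 * η * r)).le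
    rw [h2, mul_assoc, ← Real.exp_add, neg_add_cancel, Real.exp_zero, mul_one] at h6
    exact h6
  calc B * Real.exp (2 * η ^ 2 * ℓ)
      ≤ 2 ^ ℓ * Real.exp (ℓ * (-(2 * η) + 2 * η ^ 2)) * Real.exp (4 * η * r) *
        Real.exp (2 * η ^ 2 * ℓ) := mul_le_mul_of_nonneg_right h5 (Real.exp_pos _).le
    _ = 2 ^ ℓ * Real.exp (ℓ * (-(2 * η) + 2 * η ^ 2) + 4 * η * r + 2 * η ^ 2 * ℓ) := by
        rw [Real.exp_add, Real.exp_add]; ring
    _ ≤ 2 ^ ℓ * 1 := by
        refine mul_le_mul_of_nonneg_left ?_ (by positivity)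
        rw [Real.exp_le_one_iff]
        have h7 : 4 * η * r ≤ 4 * η * ((1 / 2 - η) * ℓ) :=
          mul_le_mul_of_nonneg_left hr (by positivity)
        nlinarith
    _ = 2 ^ ℓ := mul_one _

/-- Gilbert's bound -/
theorem gilbert {ℓ r : ℕ} {η : ℝ} (hη : 0 ≤ η) (hr : (r : ℝ) ≤ (1 / 2 - η) * ℓ) :
    ∃ S : Finset (Fin ℓ → Bool), Far (r + 1) S ∧ Real.exp (2 * η ^ 2 * ℓ) ≤ S.card := by
  classical
  obtain ⟨S, hS, hmax⟩ := Finset.exists_max_image
    (univ.filter fun S : Finset (Fin ℓ → Bool) => Far (r + 1) S) (fun S => S.card)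
    ⟨∅, by simp [Far]⟩
  rw [mem_filter] at hS
  refine ⟨S, hS.2, ?_⟩
  have hcov : (univ : Finset (Fin ℓ → Bool)) ⊆
      S.biUnion fun x => univ.filter fun y : Fin ℓ → Bool => hammingDist x y ≤ r := by
    intro y _
    rw [mem_biUnion]
    by_contra hcon
    push Not at hcon
    have hy : y ∉ S := by
      intro hy
      have := hcon y hy
      simp at this
    have hfar : ∀ x ∈ S, r + 1 ≤ hammingDist x y := by
      intro x hx
      have := hcon x hx
      simp only [mem_filter, mem_univ, true_and, not_le] at this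
      omega
    have h := hmax (insert y S) (by
      rw [mem_filter]
      refine ⟨mem_univ _, ?_⟩
      intro u hu v hv huv
      rw [mem_insert] at hu hv
      rcases hu with rfl | hu <;> rcases hv with rfl | hv
      · exact absurd rfl huv
      · rw [hammingDist_comm]; exact hfar v hv
      · exact hfar u hu
      · exact hS.2 u hu v hv huv)
    rw [card_insert_of_notMem hy] at h
    omega
  have h1 : (2 : ℝ) ^ ℓ ≤ ∑ x ∈ S,
      ((univ.filter fun y : Fin ℓ → Bool => hammingDist x y ≤ r).card : ℝ) := by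
    have h := (card_le_card hcov).trans card_biUnion_le
    rw [card_univ, Fintype.card_fun, Fintype.card_bool, Fintype.card_fin] at h
    exact_mod_cast h
  have h2 : (2 : ℝ) ^ ℓ * Real.exp (2 * η ^ 2 * ℓ) ≤ S.card * 2 ^ ℓ := by
    calc (2 : ℝ) ^ ℓ * Real.exp (2 * η ^ 2 * ℓ) ≤ (∑ x ∈ S,
          ((univ.filter fun y : Fin ℓ → Bool => hammingDist x y ≤ r).card : ℝ)) *
            Real.exp (2 * η ^ 2 * ℓ) := mul_le_mul_of_nonneg_right h1 (Real.exp_pos _).le
      _ = ∑ x ∈ S, ((univ.filter fun y : Fin ℓ → Bool => hammingDist x y ≤ r).card : ℝ) *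
            Real.exp (2 * η ^ 2 * ℓ) := Finset.sum_mul _ _ _
      _ ≤ ∑ x ∈ S, (2 : ℝ) ^ ℓ := Finset.sum_le_sum fun x _ => ball_le hη hr x
      _ = _ := by rw [Finset.sum_const, nsmul_eq_mul]
  have h3 : (0 : ℝ) < 2 ^ ℓ := by positivity
  rw [mul_comm] at h2
  exact le_of_mul_le_mul_right h2 h3

end Pool.Agent.Q163.DC
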