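import Pool.Agent.Q163.DC.Lower

/-!
# Every code is generated by the circuit which lists its words
-/

set_option autoImplicit false

namespace Pool.Agent.Q163.DC

open Finset

variable {n : ℕ}

/-- the circuit which lists the words of a code -/
def listCircuit (n : ℕ) (C : Finset (Fin n → Bool)) :
    Circuit (Fin n) ((Fin n × Bool) ⊕ ((C × Fin (n + 1)) ⊕ Unit)) where
  I := fun v => match v with
    | .inl (p, _) => {p}
    | .inr (.inl (_, j)) => univ.filter fun q : Fin n => q.1 < j.1
    | .inr (.inr _) => univ
  base := fun v x => match v with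
    | .inl (p, b) => x = fun q => decide (q = p) && b
    | .inr (.inl (_, j)) => j.1 = 0 ∧ x = fun _ => false
    | .inr (.inr _) => False
  rule := fun v u w => match v, u, w with
    | .inr (.inl (c, j)), .inr (.inl (c', j')), .inl (p, b) =>
        c' = c ∧ j.1 = j'.1 + 1 ∧ p.1 = j'.1 ∧ b = c.1 p
    | .inr (.inr _), .inr (.inl (_, j)), .inr (.inl (_, j')) => j.1 = n ∧ j'.1 = 0
    | _, _, _ => False
  base_card := by
    rintro (⟨p, b⟩ | ⟨c, j⟩ | _) x h
    · simp
    · have h0 : j.1 = 0 := h.1
      have : (univ.filter fun q : Fin n => q.1 < j.1) = ∅ := by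
        rw [filter_eq_empty_iff]
        intro q _
        omega
      show (univ.filter fun q : Fin n => q.1 < j.1).card ≤ 1
      rw [this]; simp
    · exact absurd h id
  base_supp := by
    rintro (⟨p, b⟩ | ⟨c, j⟩ | _) x h q hq
    · have h' : x = fun q => decide (q = p) && b := h
      rw [h'] at hq
      simp only [Bool.and_eq_true, decide_eq_true_eq] at hq
      show q ∈ ({p} : Finset (Fin n))
      rw [mem_singleton]
      exact hq.1
    · have h' : x = fun _ => false := h.2
      rw [h'] at hq
      simp at hq
    · exact absurd h id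
  rule_disj := by
    rintro (⟨p, b⟩ | ⟨c, j⟩ | _) (⟨p', b'⟩ | ⟨c', j'⟩ | _) (⟨p'', b''⟩ | ⟨c'', j''⟩ | _) h <;>
      first | exact absurd h id | skip
    · obtain ⟨h1, h2, h3, h4⟩ := h
      show Disjoint (univ.filter fun q : Fin n => q.1 < j'.1) ({p''} : Finset (Fin n))
      rw [disjoint_singleton_right, mem_filter]
      omega
    · obtain ⟨h1, h2⟩ := h
      show Disjoint (univ.filter fun q : Fin n => q.1 < j'.1)
        (univ.filter fun q : Fin n => q.1 < j''.1)
      rw [disjoint_filter]
      intro q _ h
      omega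
  rule_union := by
    rintro (⟨p, b⟩ | ⟨c, j⟩ | _) (⟨p', b'⟩ | ⟨c', j'⟩ | _) (⟨p'', b''⟩ | ⟨c'', j''⟩ | _) h <;>
      first | exact absurd h id | skip
    · obtain ⟨h1, h2, h3, h4⟩ := h
      show (univ.filter fun q : Fin n => q.1 < j.1) =
        (univ.filter fun q : Fin n => q.1 < j'.1) ∪ ({p''} : Finset (Fin n))
      ext q
      simp only [mem_filter, mem_union, mem_singleton, mem_univ, true_and, Fin.ext_iff]
      omega
    · obtain ⟨h1, h2⟩ := h
      show (univ : Finset (Fin n)) = (univ.filter fun q : Fin n => q.1 < j'.1) ∪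
        (univ.filter fun q : Fin n => q.1 < j''.1)
      ext q
      have h3 := q.2
      have h4 : j'.1 = n := h1
      simp only [mem_filter, mem_union, mem_univ, true_and, true_iff]
      left
      omega

/-- the words which the gates should generate -/
def ListSem {C : Finset (Fin n → Bool)} (v : (Fin n × Bool) ⊕ ((C × Fin (n + 1)) ⊕ Unit))
    (x : Fin n → Bool) : Prop :=
  match v with
  | .inl (p, b) => x = fun q => decide (q = p) && b
  | .inr (.inl (c, j)) => x = fun q => decide (q.1 < j.1) && c.1 q
  | .inr (.inr _) => x ∈ C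

theorem list_sound {C : Finset (Fin n → Bool)} {v : (Fin n × Bool) ⊕ ((C × Fin (n + 1)) ⊕ Unit)}
    {x : Fin n → Bool} (h : Gen (listCircuit n C) v x) : ListSem v x := by
  induction h with
  | @base v x h =>
    rcases v with ⟨p, b⟩ | ⟨c, j⟩ | _
    · exact h
    · obtain ⟨h1, h2⟩ := h
      show x = fun q => decide (q.1 < j.1) && c.1 q
      rw [h2]
      funext q
      simp [h1]
    · exact absurd h id
  | @rule v u w x y h h1 h2 ih1 ih2 =>
    rcases v with ⟨p, b⟩ | ⟨c, j⟩ | _ <;> rcases u with ⟨p', b'⟩ | ⟨c', j'⟩ | _ <;>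
      rcases w with ⟨p'', b''⟩ | ⟨c'', j''⟩ | _ <;> first | exact absurd h id | skip
    · obtain ⟨e1, e2, e3, e4⟩ := h
      have f1 : x = fun q => decide (q.1 < j'.1) && c'.1 q := ih1
      have f2 : y = fun q => decide (q = p'') && b'' := ih2
      show join x y = fun q => decide (q.1 < j.1) && c.1 q
      rw [f1, f2]
      subst e1
      funext q
      simp only [join]
      by_cases hq : q = p''
      · subst hq
        have h1 : ¬ (q.1 < j'.1) := by omega
        have h2 : q.1 < j.1 := by omega
        rw [decide_eq_false h1, decide_eq_true h2, e4]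
        simp
      · have hq' : q.1 ≠ j'.1 := fun h => hq (Fin.ext (by omega))
        have h1 : (q.1 < j'.1) ↔ (q.1 < j.1) := by omega
        simp [h1, hq]
    · obtain ⟨e1, e2⟩ := h
      have f1 : x = fun q => decide (q.1 < j'.1) && c'.1 q := ih1
      have f2 : y = fun q => decide (q.1 < j''.1) && c''.1 q := ih2
      show join x y ∈ C
      have f3 : join x y = c'.1 := by
        rw [f1, f2]
        funext q
        have := q.2
        have h1 : q.1 < j'.1 := by omega
        have h2 : ¬ q.1 < j''.1 := by omega
        simp only [join]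
        rw [decide_eq_true h1, decide_eq_false h2]
        simp
      rw [f3]
      exact c'.2

theorem list_prefix {C : Finset (Fin n → Bool)} (c : C) (j : ℕ) (hj : j < n + 1) :
    Gen (listCircuit n C) (.inr (.inl (c, ⟨j, hj⟩))) (fun q => decide (q.1 < j) && c.1 q) := by
  induction j with
  | zero =>
    refine .base (show (listCircuit n C).base (.inr (.inl (c, ⟨0, hj⟩))) _ from ?_)
    refine ⟨rfl, ?_⟩
    funext q
    simp
  | succ j ih =>
    have h1 := ih (by omega)
    have h2 : Gen (listCircuit n C) (.inl (⟨j, by omega⟩, c.1 ⟨j, by omega⟩))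
        (fun q => decide (q = ⟨j, by omega⟩) && c.1 ⟨j, by omega⟩) :=
      .base (show (listCircuit n C).base (.inl (⟨j, by omega⟩, c.1 ⟨j, by omega⟩)) _ from rfl)
    have hr : (listCircuit n C).rule (.inr (.inl (c, ⟨j + 1, hj⟩)))
        (.inr (.inl (c, ⟨j, by omega⟩))) (.inl (⟨j, by omega⟩, c.1 ⟨j, by omega⟩)) :=
      ⟨rfl, rfl, rfl, rfl⟩
    have h3 := Gen.rule hr h1 h2
    have h5 : join (fun q : Fin n => decide (q.1 < j) && c.1 q)
        (fun q => decide (q = ⟨j, by omega⟩) && c.1 ⟨j, by omega⟩) =
        (fun q => decide (q.1 < j + 1) && c.1 q) := list_sound h3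
    rw [← h5]
    exact h3

/-- every code is generated by a circuit of about `n |C|` gates -/
theorem listing (C : Finset (Fin n → Bool)) : Generates ((n + 1) * (C.card + 2)) C := by
  classical
  refine ⟨_, inferInstance, listCircuit n C, .inr (.inr ()), ?_, ?_⟩
  · simp only [Fintype.card_sum, Fintype.card_prod, Fintype.card_fin, Fintype.card_bool,
      Fintype.card_coe, Fintype.card_unit]
    nlinarith
  · intro x
    constructor
    · intro hx
      have h1 := list_prefix ⟨x, hx⟩ n (by omega)
      have h2 := list_prefix ⟨x, hx⟩ 0 (by omega)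
      have hr : (listCircuit n C).rule (.inr (.inr ())) (.inr (.inl (⟨x, hx⟩, ⟨n, by omega⟩)))
          (.inr (.inl (⟨x, hx⟩, ⟨0, by omega⟩))) := ⟨rfl, rfl⟩
      have h3 := Gen.rule hr h1 h2
      have h4 : join (fun q : Fin n => decide (q.1 < n) && x q)
          (fun q => decide (q.1 < 0) && x q) = x := by
        funext q
        simp [join]
      rw [h4] at h3
      exact h3
    · intro h
      exact list_sound h

end Pool.Agent.Q163.DC
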