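import Pool.Agent.Q163.DC.GV

/-!
# Codes generated by decomposable circuits: the construction
-/

set_option autoImplicit false

namespace Pool.Agent.Q163.DC

open Finset

/-- the gates of the construction: letters, beginnings of block words, paths with a partial sum -/
abbrev Gates (n t l s : ℕ) : Type :=
  (Fin n × Bool) ⊕ ((Fin t × ZMod s × Fin (l + 1)) ⊕ (Fin (t + 1) × ZMod s))

variable {n t l s : ℕ}

/-- the circuit of the construction -/
def blockCircuit (n t l s : ℕ) (W : ZMod s → ℕ → Bool) : Circuit (Fin n) (Gates n t l s) where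
  I := fun v => match v with
    | .inl (p, _) => {p}
    | .inr (.inl (i, _, j)) => univ.filter fun q : Fin n => i.1 * l ≤ q.1 ∧ q.1 < i.1 * l + j.1
    | .inr (.inr (i, _)) => univ.filter fun q : Fin n => q.1 < i.1 * l
  base := fun v x => match v with
    | .inl (p, b) => x = fun q => decide (q = p) && b
    | .inr (.inl (_, _, j)) => j.1 = 0 ∧ x = fun _ => false
    | .inr (.inr (i, g)) => i.1 = 0 ∧ g = 0 ∧ x = fun _ => false
  rule := fun v u w => match v, u, w with
    | .inr (.inl (i, g, j)), .inr (.inl (i', g', j')), .inl (p, b) =>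
        i' = i ∧ g' = g ∧ j.1 = j'.1 + 1 ∧ p.1 = i.1 * l + j'.1 ∧ b = W g j'.1
    | .inr (.inr (i, g)), .inr (.inr (i', g')), .inr (.inl (k, h, j)) =>
        i.1 = i'.1 + 1 ∧ k.1 = i'.1 ∧ j.1 = l ∧ g = g' + h
    | _, _, _ => False
  base_card := by
    rintro (⟨p, b⟩ | ⟨i, g, j⟩ | ⟨i, g⟩) x h
    · simp
    · have h0 : j.1 = 0 := h.1
      have : (univ.filter fun q : Fin n => i.1 * l ≤ q.1 ∧ q.1 < i.1 * l + j.1) = ∅ := by
        rw [filter_eq_empty_iff]
        intro q _
        omega
      show (univ.filter fun q : Fin n => i.1 * l ≤ q.1 ∧ q.1 < i.1 * l + j.1).card ≤ 1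
      rw [this]; simp
    · have h0 : i.1 = 0 := h.1
      have : (univ.filter fun q : Fin n => q.1 < i.1 * l) = ∅ := by
        rw [filter_eq_empty_iff]
        intro q _
        rw [h0, zero_mul]
        omega
      show (univ.filter fun q : Fin n => q.1 < i.1 * l).card ≤ 1
      rw [this]; simp
  base_supp := by
    rintro (⟨p, b⟩ | ⟨i, g, j⟩ | ⟨i, g⟩) x h q hq
    · have h' : x = fun q => decide (q = p) && b := h
      rw [h'] at hq
      simp only [Bool.and_eq_true, decide_eq_true_eq] at hq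
      show q ∈ ({p} : Finset (Fin n))
      rw [mem_singleton]
      exact hq.1
    · have h' : x = fun _ => false := h.2
      rw [h'] at hq
      simp at hq
    · have h' : x = fun _ => false := h.2.2
      rw [h'] at hq
      simp at hq
  rule_disj := by
    rintro (⟨p, b⟩ | ⟨i, g, j⟩ | ⟨i, g⟩) (⟨p', b'⟩ | ⟨i', g', j'⟩ | ⟨i', g'⟩)
      (⟨p'', b''⟩ | ⟨i'', g'', j''⟩ | ⟨i'', g''⟩) h <;> first | exact absurd h id | skip
    · obtain ⟨h1, h2, h3, h4, h5⟩ := h
      subst h1
      show Disjoint (univ.filter fun q : Fin n => i'.1 * l ≤ q.1 ∧ q.1 < i'.1 * l + j'.1)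
        ({p''} : Finset (Fin n))
      rw [disjoint_singleton_right, mem_filter]
      omega
    · obtain ⟨h1, h2, h3, h4⟩ := h
      show Disjoint (univ.filter fun q : Fin n => q.1 < i'.1 * l)
        (univ.filter fun q : Fin n => i''.1 * l ≤ q.1 ∧ q.1 < i''.1 * l + j''.1)
      rw [h2, disjoint_filter]
      intro q _ h
      omega
  rule_union := by
    rintro (⟨p, b⟩ | ⟨i, g, j⟩ | ⟨i, g⟩) (⟨p', b'⟩ | ⟨i', g', j'⟩ | ⟨i', g'⟩)
      (⟨p'', b''⟩ | ⟨i'', g'', j''⟩ | ⟨i'', g''⟩) h <;> first | exact absurd h id | skip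
    · obtain ⟨h1, h2, h3, h4, h5⟩ := h
      subst h1
      show (univ.filter fun q : Fin n => i'.1 * l ≤ q.1 ∧ q.1 < i'.1 * l + j.1) =
        (univ.filter fun q : Fin n => i'.1 * l ≤ q.1 ∧ q.1 < i'.1 * l + j'.1) ∪
        ({p''} : Finset (Fin n))
      ext q
      simp only [mem_filter, mem_union, mem_singleton, mem_univ, true_and, Fin.ext_iff]
      omega
    · obtain ⟨h1, h2, h3, h4⟩ := h
      show (univ.filter fun q : Fin n => q.1 < i.1 * l) =
        (univ.filter fun q : Fin n => q.1 < i'.1 * l) ∪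
        (univ.filter fun q : Fin n => i''.1 * l ≤ q.1 ∧ q.1 < i''.1 * l + j''.1)
      ext q
      simp only [mem_filter, mem_union, mem_univ, true_and]
      rw [h1, h2, h3, Nat.succ_mul]
      omega

/-- a beginning of a block word, put into the block `i` -/
def blk (W : ZMod s → ℕ → Bool) (l : ℕ) (i : ℕ) (g : ZMod s) (j : ℕ) : Fin n → Bool :=
  fun q => decide (i * l ≤ q.1 ∧ q.1 < i * l + j) && W g (q.1 - i * l)

/-- the concatenation of the block words `W (f 0)`, ..., `W (f (i - 1))` -/
def bw (W : ZMod s → ℕ → Bool) (l : ℕ) (f : ℕ → ZMod s) (i : ℕ) : Fin n → Bool :=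
  fun q => decide (q.1 < i * l) && W (f (q.1 / l)) (q.1 % l)

theorem bw_congr {W : ZMod s → ℕ → Bool} {f f' : ℕ → ZMod s} {i : ℕ} (h : ∀ k < i, f k = f' k) :
    (bw W l f i : Fin n → Bool) = bw W l f' i := by
  funext q
  simp only [bw]
  by_cases h1 : q.1 < i * l
  · have hl : 0 < l := by
      rcases Nat.eq_zero_or_pos l with h0 | h0
      · rw [h0] at h1; simp at h1
      · exact h0
    have h2 : q.1 / l < i := (Nat.div_lt_iff_lt_mul hl).2 h1
    rw [h _ h2]
  · simp [h1]

theorem bw_succ (W : ZMod s → ℕ → Bool) (f : ℕ → ZMod s) (i : ℕ) :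
    join (bw W l f i) (blk W l i (f i) l) = (bw W l f (i + 1) : Fin n → Bool) := by
  funext q
  simp only [join, bw, blk]
  have e : (i + 1) * l = i * l + l := by ring
  by_cases h1 : q.1 < i * l
  · have h2 : ¬ (i * l ≤ q.1 ∧ q.1 < i * l + l) := by omega
    have h3 : q.1 < (i + 1) * l := by omega
    simp [h1, h2, h3]
  · by_cases h2 : q.1 < i * l + l
    · have h3 : q.1 < (i + 1) * l := by omega
      have hl : 0 < l := by omega
      have h4 : q.1 / l = i := by
        have e1 : q.1 / l < i + 1 := (Nat.div_lt_iff_lt_mul hl).2 h3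
        have e2 : i ≤ q.1 / l := (Nat.le_div_iff_mul_le hl).2 (by omega)
        omega
      have h5 : q.1 % l = q.1 - i * l := by
        have := Nat.div_add_mod q.1 l
        rw [h4, mul_comm l i] at this
        omega
      rw [h4, h5]
      have h6 : i * l ≤ q.1 ∧ q.1 < i * l + l := by omega
      simp [h1, h3, h6]
    · have h3 : ¬ q.1 < (i + 1) * l := by omega
      have h6 : ¬ (i * l ≤ q.1 ∧ q.1 < i * l + l) := by omega
      simp [h1, h3, h6]

/-- the words which the gates should generate -/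
def Sem (W : ZMod s → ℕ → Bool) (v : Gates n t l s) (x : Fin n → Bool) : Prop :=
  match v with
  | .inl (p, b) => x = fun q => decide (q = p) && b
  | .inr (.inl (i, g, j)) => x = blk W l i.1 g j.1
  | .inr (.inr (i, g)) => ∃ f : ℕ → ZMod s, ∑ k ∈ range i.1, f k = g ∧ x = bw W l f i.1

theorem sound {W : ZMod s → ℕ → Bool} {v : Gates n t l s} {x : Fin n → Bool}
    (h : Gen (blockCircuit n t l s W) v x) : Sem W v x := by
  induction h with
  | @base v x h =>
    rcases v with ⟨p, b⟩ | ⟨i, g, j⟩ | ⟨i, g⟩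
    · exact h
    · obtain ⟨h1, h2⟩ := h
      show x = blk W l i.1 g j.1
      rw [h2]
      funext q
      have : ¬ (i.1 * l ≤ q.1 ∧ q.1 < i.1 * l + j.1) := by omega
      simp [blk, this]
    · obtain ⟨h1, h2, h3⟩ := h
      refine ⟨fun _ => 0, by rw [h2]; simp, ?_⟩
      rw [h3]
      funext q
      simp [bw, h1]
  | @rule v u w x y h h1 h2 ih1 ih2 =>
    rcases v with ⟨p, b⟩ | ⟨i, g, j⟩ | ⟨i, g⟩ <;> rcases u with ⟨p', b'⟩ | ⟨i', g', j'⟩ | ⟨i', g'⟩ <;>
      rcases w with ⟨p'', b''⟩ | ⟨i'', g'', j''⟩ | ⟨i'', g''⟩ <;> first | exact absurd h id | skip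
    · obtain ⟨e1, e2, e3, e4, e5⟩ := h
      have f1 : x = blk W l i'.1 g' j'.1 := ih1
      have f2 : y = fun q => decide (q = p'') && b'' := ih2
      show join x y = blk W l i.1 g j.1
      rw [f1, f2]
      subst e1 e2
      funext q
      simp only [join, blk]
      by_cases hq : q = p''
      · subst hq
        have h1 : ¬ (i'.1 * l ≤ q.1 ∧ q.1 < i'.1 * l + j'.1) := by omega
        have h2 : i'.1 * l ≤ q.1 ∧ q.1 < i'.1 * l + j.1 := by omega
        have h3 : q.1 - i'.1 * l = j'.1 := by omega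
        rw [decide_eq_false h1, decide_eq_true h2, h3, e5]
        simp
      · have hq' : q.1 ≠ i'.1 * l + j'.1 := fun h => hq (Fin.ext (by omega))
        have h1 : (i'.1 * l ≤ q.1 ∧ q.1 < i'.1 * l + j'.1) ↔
          (i'.1 * l ≤ q.1 ∧ q.1 < i'.1 * l + j.1) := by omega
        simp [h1, hq]
    · obtain ⟨e1, e2, e3, e4⟩ := h
      obtain ⟨f, hf, f1⟩ := ih1
      have f2 : y = blk W l i''.1 g'' j''.1 := ih2
      refine ⟨fun k => if k = i'.1 then g'' else f k, ?_, ?_⟩
      · rw [e1, sum_range_succ, e4, ← hf]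
        congr 1
        · refine Finset.sum_congr rfl fun k hk => ?_
          rw [mem_range] at hk
          rw [if_neg (by omega)]
        · rw [if_pos rfl]
      · rw [f1, f2, e1, ← bw_succ, e2, e3]
        simp only [if_true]
        congr 1
        exact bw_congr fun k hk => by rw [if_neg (by omega)]

theorem complete_blk {W : ZMod s → ℕ → Bool} (htl : t * l ≤ n) (i : Fin t) (g : ZMod s) (j : ℕ)
    (hj : j < l + 1) :
    Gen (blockCircuit n t l s W) (.inr (.inl (i, g, ⟨j, hj⟩))) (blk W l i.1 g j) := by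
  induction j with
  | zero =>
    refine .base (show (blockCircuit n t l s W).base (.inr (.inl (i, g, ⟨0, hj⟩))) _ from ?_)
    refine ⟨rfl, ?_⟩
    funext q
    have : ¬ (i.1 * l ≤ q.1 ∧ q.1 < i.1 * l + 0) := by omega
    simp [blk]
  | succ j ih =>
    have hp : i.1 * l + j < n := by
      have h1 : (i.1 + 1) * l ≤ t * l := Nat.mul_le_mul_right _ i.2
      have h2 : (i.1 + 1) * l = i.1 * l + l := by ring
      omega
    have h1 := ih (by omega)
    have h2 : Gen (blockCircuit n t l s W) (.inl (⟨i.1 * l + j, hp⟩, W g j))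
        (fun q => decide (q = ⟨i.1 * l + j, hp⟩) && W g j) :=
      .base (show (blockCircuit n t l s W).base (.inl (⟨i.1 * l + j, hp⟩, W g j)) _ from rfl)
    have hr : (blockCircuit n t l s W).rule (.inr (.inl (i, g, ⟨j + 1, hj⟩)))
        (.inr (.inl (i, g, ⟨j, by omega⟩))) (.inl (⟨i.1 * l + j, hp⟩, W g j)) :=
      ⟨rfl, rfl, rfl, rfl, rfl⟩
    have h3 := Gen.rule hr h1 h2
    have h4 := sound h3
    have h5 : join (blk W l i.1 g j) (fun q => decide (q = ⟨i.1 * l + j, hp⟩) && W g j) =
      (blk W l i.1 g (j + 1) : Fin n → Bool) := h4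
    rw [← h5]
    exact h3

theorem complete_bw {W : ZMod s → ℕ → Bool} (htl : t * l ≤ n) (f : ℕ → ZMod s) (i : ℕ)
    (hi : i < t + 1) :
    Gen (blockCircuit n t l s W) (.inr (.inr (⟨i, hi⟩, ∑ k ∈ range i, f k))) (bw W l f i) := by
  induction i with
  | zero =>
    refine .base (show (blockCircuit n t l s W).base _ _ from ?_)
    refine ⟨rfl, by simp, ?_⟩
    funext q
    simp [bw]
  | succ i ih =>
    have h1 := ih (by omega)
    have h2 := complete_blk (n := n) (W := W) htl ⟨i, by omega⟩ (f i) l (by omega)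
    have hr : (blockCircuit n t l s W).rule (.inr (.inr (⟨i + 1, hi⟩, ∑ k ∈ range (i + 1), f k)))
        (.inr (.inr (⟨i, by omega⟩, ∑ k ∈ range i, f k)))
        (.inr (.inl (⟨i, by omega⟩, f i, ⟨l, by omega⟩))) :=
      ⟨rfl, rfl, rfl, sum_range_succ _ _⟩
    have h3 := Gen.rule hr h1 h2
    rw [bw_succ] at h3
    exact h3

/-- two different sequences of indices with equal sums give words at distance `2 d'` -/
theorem bw_dist {W : ZMod s → ℕ → Bool} {d' : ℕ} (htl : t * l ≤ n)
    (hW : ∀ g h, g ≠ h → d' ≤ ((range l).filter fun j => W g j ≠ W h j).card)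
    {f f' : ℕ → ZMod s} (hs : ∑ k ∈ range t, f k = ∑ k ∈ range t, f' k) {k : ℕ} (hk : k < t)
    (hne : f k ≠ f' k) :
    2 * d' ≤ hammingDist (bw W l f t : Fin n → Bool) (bw W l f' t) := by
  classical
  obtain ⟨k', hk', hkk, hne'⟩ : ∃ k' < t, k' ≠ k ∧ f k' ≠ f' k' := by
    by_contra hcon
    push Not at hcon
    rw [← Finset.add_sum_erase _ _ (mem_range.2 hk), ← Finset.add_sum_erase _ _ (mem_range.2 hk),
      Finset.sum_congr rfl fun j hj => hcon j (mem_range.1 (mem_of_mem_erase hj))
        (ne_of_mem_erase hj)] at hs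
    exact hne (add_right_cancel hs)
  have key : ∀ k < t, ∀ j ∈ (range l).filter (fun j => W (f k) j ≠ W (f' k) j),
      ∃ h : k * l + j < n, (bw W l f t : Fin n → Bool) ⟨k * l + j, h⟩ ≠
        (bw W l f' t : Fin n → Bool) ⟨k * l + j, h⟩ := by
    intro k hk j hj
    rw [mem_filter, mem_range] at hj
    have h1 : (k + 1) * l ≤ t * l := Nat.mul_le_mul_right _ hk
    have h2 : (k + 1) * l = k * l + l := by ring
    refine ⟨by omega, ?_⟩
    have hl : 0 < l := by omega
    have h3 : (k * l + j) / l = k := by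
      have e1 : (k * l + j) / l < k + 1 := (Nat.div_lt_iff_lt_mul hl).2 (by omega)
      have e2 : k ≤ (k * l + j) / l := (Nat.le_div_iff_mul_le hl).2 (by omega)
      omega
    have h4 : (k * l + j) % l = j := by
      rw [mul_comm k l, Nat.mul_add_mod, Nat.mod_eq_of_lt hj.1]
    have h5 : k * l + j < t * l := by omega
    simp only [bw, h3, h4, h5, decide_true, Bool.true_and]
    exact hj.2
  set A : Finset ℕ := ((range l).filter fun j => W (f k) j ≠ W (f' k) j).image (k * l + ·) with hA
  set B : Finset ℕ := ((range l).filter fun j => W (f k') j ≠ W (f' k') j).image (k' * l + ·)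
    with hB
  have hAc : d' ≤ A.card := by
    rw [hA, card_image_of_injective _ (add_right_injective _)]
    exact hW _ _ hne
  have hBc : d' ≤ B.card := by
    rw [hB, card_image_of_injective _ (add_right_injective _)]
    exact hW _ _ hne'
  have hAB : Disjoint A B := by
    rw [Finset.disjoint_left]
    intro a ha hb
    simp only [hA, hB, mem_image, mem_filter, mem_range] at ha hb
    obtain ⟨j, ⟨hj, -⟩, e1⟩ := ha
    obtain ⟨j', ⟨hj', -⟩, e2⟩ := hb
    rcases lt_or_gt_of_ne hkk with h | h
    · have h1 : (k' + 1) * l ≤ k * l := Nat.mul_le_mul_right _ h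
      have h2 : (k' + 1) * l = k' * l + l := by ring
      omega
    · have h1 : (k + 1) * l ≤ k' * l := Nat.mul_le_mul_right _ h
      have h2 : (k + 1) * l = k * l + l := by ring
      omega
  have hsub : A ∪ B ⊆ (univ.filter fun i : Fin n =>
      (bw W l f t : Fin n → Bool) i ≠ (bw W l f' t : Fin n → Bool) i).map Fin.valEmbedding := by
    intro a ha
    rw [mem_union] at ha
    rw [mem_map]
    rcases ha with ha | ha
    · rw [hA, mem_image] at ha
      obtain ⟨j, hj, rfl⟩ := ha
      obtain ⟨h1, h2⟩ := key k hk j hj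
      exact ⟨⟨_, h1⟩, mem_filter.2 ⟨mem_univ _, h2⟩, rfl⟩
    · rw [hB, mem_image] at ha
      obtain ⟨j, hj, rfl⟩ := ha
      obtain ⟨h1, h2⟩ := key k' hk' j hj
      exact ⟨⟨_, h1⟩, mem_filter.2 ⟨mem_univ _, h2⟩, rfl⟩
  calc 2 * d' ≤ A.card + B.card := by omega
    _ = (A ∪ B).card := (card_union_of_disjoint hAB).symm
    _ ≤ _ := card_le_card hsub
    _ = hammingDist (bw W l f t : Fin n → Bool) (bw W l f' t) := by
        rw [card_map, hammingDist]

/-- a sequence of `k` indices, continued so that the sum is zero -/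
def ext {k : ℕ} (φ : Fin k → ZMod s) : ℕ → ZMod s :=
  fun i => if h : i < k then φ ⟨i, h⟩ else - ∑ j, φ j

theorem ext_sum {k : ℕ} (φ : Fin k → ZMod s) : ∑ i ∈ range (k + 1), ext φ i = 0 := by
  rw [sum_range_succ, Finset.sum_range]
  have h1 : ∀ i : Fin k, ext φ i.1 = φ i := fun i => by simp [ext]
  rw [Finset.sum_congr rfl fun i _ => h1 i]
  simp [ext]

/-- the code `C` is generated by a decomposable circuit with at most `m` gates -/
def Generates (m : ℕ) (C : Finset (Fin n → Bool)) : Prop :=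
  ∃ (V : Type) (_ : Fintype V) (G : Circuit (Fin n) V) (r : V),
    Fintype.card V ≤ m ∧ ∀ x, x ∈ C ↔ Gen G r x

theorem construction {k l s n d' : ℕ} [NeZero s] (W : ZMod s → ℕ → Bool) (htl : (k + 1) * l ≤ n)
    (hd : 1 ≤ d')
    (hW : ∀ g h, g ≠ h → d' ≤ ((range l).filter fun j => W g j ≠ W h j).card) :
    ∃ C : Finset (Fin n → Bool), Far (2 * d') C ∧ C.card = s ^ k ∧
      Generates (2 * n + (k + 1) * s * (l + 1) + (k + 2) * s) C := by
  classical
  have hext : ∀ {f f' : ℕ → ZMod s}, ∑ i ∈ range (k + 1), f i = 0 →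
      ∑ i ∈ range (k + 1), f' i = 0 → (∀ i < k + 1, f i = f' i) ∨
        2 * d' ≤ hammingDist (bw W l f (k + 1) : Fin n → Bool) (bw W l f' (k + 1)) := by
    intro f f' hf hf'
    by_cases h : ∀ i < k + 1, f i = f' i
    · exact .inl h
    · right
      push Not at h
      obtain ⟨i, hi, hne⟩ := h
      exact bw_dist htl hW (hf.trans hf'.symm) hi hne
  refine ⟨univ.image fun φ : Fin k → ZMod s => bw W l (ext φ) (k + 1), ?_, ?_, ?_⟩
  · intro x hx y hy hxy
    rw [mem_image] at hx hy
    obtain ⟨φ, -, rfl⟩ := hx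
    obtain ⟨ψ, -, rfl⟩ := hy
    rcases hext (ext_sum φ) (ext_sum ψ) with h | h
    · exact absurd (bw_congr h) hxy
    · exact h
  · rw [card_image_of_injective]
    · rw [card_univ, Fintype.card_fun, ZMod.card, Fintype.card_fin]
    · intro φ ψ h
      rcases hext (ext_sum φ) (ext_sum ψ) with h' | h'
      · funext i
        have := h' i.1 (by omega)
        simpa [ext] using this
      · exfalso
        have h2 : (bw W l (ext φ) (k + 1) : Fin n → Bool) = bw W l (ext ψ) (k + 1) := h
        rw [h2, hammingDist_self] at h'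
        omega
  · refine ⟨Gates n (k + 1) l s, inferInstance, blockCircuit n (k + 1) l s W,
      .inr (.inr (⟨k + 1, by omega⟩, 0)), ?_, ?_⟩
    · simp only [Fintype.card_sum, Fintype.card_prod, Fintype.card_fin, Fintype.card_bool, ZMod.card]
      nlinarith
    · intro x
      rw [mem_image]
      constructor
      · rintro ⟨φ, -, rfl⟩
        have h := complete_bw (W := W) htl (ext φ) (k + 1) (by omega)
        rw [ext_sum] at h
        exact h
      · intro h
        obtain ⟨f, hf, rfl⟩ := sound h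
        refine ⟨fun i => f i.1, mem_univ _, ?_⟩
        refine bw_congr fun i hi => ?_
        by_cases h1 : i < k
        · simp [ext, h1]
        · have h2 : i = k := by
            have : i < k + 1 := hi
            omega
          subst h2
          have h3 : ∑ j ∈ range (i + 1), f j = 0 := hf
          rw [sum_range_succ, Finset.sum_range] at h3
          simp only [ext, lt_irrefl, dite_false]
          rw [neg_eq_iff_add_eq_zero]
          exact h3

end Pool.Agent.Q163.DC
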