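import Pool.Agent.Q163.DC.Basic

/-!
# Codes generated by decomposable circuits: the upper bound
-/

set_option autoImplicit false

namespace Pool.Agent.Q163.DC

open Finset

variable {ι : Type} [DecidableEq ι] [Fintype ι]

/-- the minimum distance is at least `d` -/
def Far (d : ℕ) (S : Finset (ι → Bool)) : Prop :=
  ∀ x ∈ S, ∀ y ∈ S, x ≠ y → d ≤ hammingDist x y

/-- Plotkin's bound for fewer than `2 d` coordinates -/
theorem plotkin1 {d : ℕ} (J : Finset ι) (hJ : J.card < 2 * d) (S : Finset (ι → Bool))
    (hS : Far d S) (hs : ∀ x ∈ S, ∀ y ∈ S, ∀ i, i ∉ J → x i = y i) : S.card ≤ 2 * d := by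
  classical
  -- the sum of all distances
  have h1 : d * (S.card * (S.card - 1)) ≤ ∑ x ∈ S, ∑ y ∈ S, hammingDist x y := by
    have h : ∀ x ∈ S, d * (S.card - 1) ≤ ∑ y ∈ S, hammingDist x y := by
      intro x hx
      rw [← Finset.sum_erase_add S _ hx, ← card_erase_of_mem hx, mul_comm, ← smul_eq_mul]
      refine le_trans ?_ (Nat.le_add_right _ _)
      refine Finset.card_nsmul_le_sum _ _ _ fun y hy => ?_
      exact hS x hx y (mem_of_mem_erase hy) (ne_of_mem_erase hy).symm
    calc d * (S.card * (S.card - 1)) = ∑ x ∈ S, d * (S.card - 1) := by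
          rw [Finset.sum_const, smul_eq_mul]; ring
      _ ≤ _ := Finset.sum_le_sum h
  have h2 : ∑ x ∈ S, ∑ y ∈ S, hammingDist x y =
      ∑ i ∈ J, ∑ x ∈ S, ∑ y ∈ S, if x i ≠ y i then 1 else 0 := by
    have h : ∀ x ∈ S, ∀ y ∈ S, hammingDist x y = ∑ i ∈ J, if x i ≠ y i then 1 else 0 := by
      intro x hx y hy
      rw [hammingDist, Finset.card_filter]
      symm
      apply Finset.sum_subset (subset_univ J)
      intro i _ hi
      rw [if_neg]
      exact fun h => h (hs x hx y hy i hi)
    rw [Finset.sum_congr rfl fun x hx => Finset.sum_congr rfl fun y hy => h x hx y hy]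
    rw [Finset.sum_congr rfl fun x _ => Finset.sum_comm, Finset.sum_comm]
  have h3 : ∀ i : ι, 2 * (∑ x ∈ S, ∑ y ∈ S, if x i ≠ y i then 1 else 0) ≤ S.card ^ 2 := by
    intro i
    set a := (S.filter fun x => x i = true).card
    set b := (S.filter fun x => ¬ x i = true).card
    have hab : a + b = S.card := Finset.card_filter_add_card_filter_not _
    have h : ∑ x ∈ S, ∑ y ∈ S, (if x i ≠ y i then 1 else 0) = a * b + b * a := by
      have e : ∀ x ∈ S, ∑ y ∈ S, (if x i ≠ y i then 1 else 0) = if x i = true then b else a := by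
        intro x _
        by_cases hx : x i = true
        · rw [if_pos hx]
          simp only [b, Finset.card_filter]
          refine Finset.sum_congr rfl fun y _ => ?_
          by_cases hy : y i = true <;> simp [hx, hy]
        · rw [if_neg hx]
          simp only [a, Finset.card_filter]
          refine Finset.sum_congr rfl fun y _ => ?_
          by_cases hy : y i = true <;> simp [hx, hy]
      rw [Finset.sum_congr rfl e, Finset.sum_ite, Finset.sum_const, Finset.sum_const]
      simp only [smul_eq_mul]
      rfl
    rw [h, ← hab]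
    nlinarith [sq_nonneg ((a : ℤ) - b), Int.natCast_nonneg a, sq_nonneg ((a : ℤ) - (b : ℤ)),
      show (2 * (a * b + b * a) : ℤ) ≤ ((a : ℤ) + b) ^ 2 by nlinarith [sq_nonneg ((a : ℤ) - b)]]
  have h4 : 2 * (d * (S.card * (S.card - 1))) ≤ J.card * S.card ^ 2 := by
    calc 2 * (d * (S.card * (S.card - 1))) ≤ 2 * ∑ x ∈ S, ∑ y ∈ S, hammingDist x y :=
          Nat.mul_le_mul_left _ h1
      _ = ∑ i ∈ J, 2 * (∑ x ∈ S, ∑ y ∈ S, if x i ≠ y i then 1 else 0) := by
          rw [h2, Finset.mul_sum]
      _ ≤ ∑ i ∈ J, S.card ^ 2 := Finset.sum_le_sum fun i _ => h3 i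
      _ = _ := by rw [Finset.sum_const, smul_eq_mul]
  rcases Nat.eq_zero_or_pos S.card with h0 | h0
  · omega
  · obtain ⟨m, hm⟩ : ∃ m, S.card = m + 1 := ⟨S.card - 1, by omega⟩
    rw [hm] at h4 ⊢
    have h5 : J.card * (m + 1) ^ 2 ≤ (2 * d - 1) * (m + 1) ^ 2 :=
      Nat.mul_le_mul_right _ (by omega)
    have h6 : 2 * (d * ((m + 1) * m)) ≤ (2 * d - 1) * (m + 1) ^ 2 := by
      simpa using h4.trans h5
    have h7 : (2 * d * m) * (m + 1) ≤ ((2 * d - 1) * (m + 1)) * (m + 1) := by
      calc (2 * d * m) * (m + 1) = 2 * (d * ((m + 1) * m)) := by ring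
        _ ≤ (2 * d - 1) * (m + 1) ^ 2 := h6
        _ = _ := by ring
    have h8 : 2 * d * m ≤ (2 * d - 1) * (m + 1) := Nat.le_of_mul_le_mul_right h7 (by omega)
    obtain ⟨e, he⟩ : ∃ e, 2 * d = e + 1 := ⟨2 * d - 1, by omega⟩
    rw [he] at h8 ⊢
    simp only [Nat.add_sub_cancel] at h8
    nlinarith

/-- Plotkin's bound for at most `2 d` coordinates -/
theorem plotkin2 {d : ℕ} (hd : 1 ≤ d) (J : Finset ι) (hJ : J.card ≤ 2 * d)
    (S : Finset (ι → Bool)) (hS : Far d S) (hs : ∀ x ∈ S, ∀ y ∈ S, ∀ i, i ∉ J → x i = y i) :
    S.card ≤ 4 * d := by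
  classical
  rcases J.eq_empty_or_nonempty with rfl | ⟨j, hj⟩
  · have := plotkin1 (d := d) ∅ (by simp; omega) S hS hs
    omega
  · have h : ∀ b : Bool, (S.filter fun x => x j = b).card ≤ 2 * d := by
      intro b
      refine plotkin1 (J.erase j) (by rw [card_erase_of_mem hj]; have := card_pos.2 ⟨j, hj⟩; omega) _
        (fun x hx y hy => hS x (filter_subset _ _ hx) y (filter_subset _ _ hy)) ?_
      intro x hx y hy i hi
      rw [mem_filter] at hx hy
      by_cases hij : i = j
      · rw [hij, hx.2, hy.2]
      · exact hs x hx.1 y hy.1 i fun h => hi (mem_erase.2 ⟨hij, h⟩)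
    have h1 := h true
    have h2 := h false
    have h3 : (S.filter fun x => x j = true).card + (S.filter fun x => x j = false).card =
        S.card := by
      rw [← Finset.card_filter_add_card_filter_not (s := S) (fun x => x j = true)]
      congr 2
      ext x
      simp
    omega

/-- the words generated by a gate, as a finite set -/
noncomputable def lang {V : Type} (G : Circuit ι V) (v : V) : Finset (ι → Bool) := by
  classical
  exact univ.filter (Gen G v)

theorem mem_lang {V : Type} (G : Circuit ι V) (v : V) (x : ι → Bool) :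
    x ∈ lang G v ↔ Gen G v x := by
  classical
  simp [lang]

theorem hammingDist_join_le (x y z : ι → Bool) :
    hammingDist (join x z) (join y z) ≤ hammingDist x y := by
  refine Finset.card_le_card fun i hi => ?_
  simp only [mem_filter, mem_univ, true_and] at hi ⊢
  intro h
  exact hi (by simp [join, h])

theorem join_inj {J : Finset ι} {x y z : ι → Bool} (hx : ∀ i, x i = true → i ∉ J)
    (hy : ∀ i, y i = true → i ∉ J) (hz : ∀ i, z i = true → i ∈ J) (h : join x z = join y z) :
    x = y := by
  funext i
  have h1 := congrFun h i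
  simp only [join] at h1
  by_cases hi : i ∈ J
  · have h2 : x i = false := by
      by_contra h2
      exact hx i (by simpa using h2) hi
    have h3 : y i = false := by
      by_contra h3
      exact hy i (by simpa using h3) hi
    rw [h2, h3]
  · have h2 : z i = false := by
      by_contra h2
      exact hi (hz i (by simpa using h2))
    simpa [h2] using h1

theorem upper {d : ℕ} (hd : 1 ≤ d) (j : ℕ) : ∀ (V : Type) [Fintype V] (G : Circuit ι V) (r : V),
    (G.I r).card ≤ 2 * d + j * (d + 1) → Far d (lang G r) →
    (lang G r).card ≤ (4 * d) ^ (j + 1) * Fintype.card V ^ j * 2 ^ (j * j) := by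
  classical
  induction j with
  | zero =>
    intro V _ G r hI hF
    simp only [zero_mul, add_zero] at hI
    simp only [zero_add, pow_one, pow_zero, mul_one, mul_zero]
    refine plotkin2 hd (G.I r) hI _ hF fun x hx y hy i hi => ?_
    rw [mem_lang] at hx hy
    have h1 : x i = false := by
      by_contra h; exact hi (hx.supp i (by simpa using h))
    have h2 : y i = false := by
      by_contra h; exact hi (hy.supp i (by simpa using h))
    rw [h1, h2]
  | succ j ih =>
    intro V _ G r hI hF
    have hs : 1 ≤ Fintype.card V := Fintype.card_pos_iff.2 ⟨r⟩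
    by_cases hc : (G.I r).card ≤ 2 * d
    · have h1 : (lang G r).card ≤ 4 * d := by
        refine plotkin2 hd (G.I r) hc _ hF fun x hx y hy i hi => ?_
        rw [mem_lang] at hx hy
        have h1 : x i = false := by
          by_contra h; exact hi (hx.supp i (by simpa using h))
        have h2 : y i = false := by
          by_contra h; exact hi (hy.supp i (by simpa using h))
        rw [h1, h2]
      have h2 : 1 ≤ (4 * d) ^ (j + 1) * Fintype.card V ^ (j + 1) * 2 ^ ((j + 1) * (j + 1)) := by
        have := Nat.one_le_pow (j + 1) (4 * d) (by omega)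
        have := Nat.one_le_pow (j + 1) (Fintype.card V) hs
        have := Nat.one_le_pow ((j + 1) * (j + 1)) 2 (by omega)
        exact Nat.one_le_iff_ne_zero.2 (by positivity)
      calc (lang G r).card ≤ 4 * d * 1 := by omega
        _ ≤ 4 * d * ((4 * d) ^ (j + 1) * Fintype.card V ^ (j + 1) *
            2 ^ ((j + 1) * (j + 1))) := Nat.mul_le_mul_left _ h2
        _ = _ := by ring
    · push Not at hc
      -- the pieces
      let A : Finset V := univ.filter fun a => d < (G.I a).card ∧ (G.I a).card ≤ 2 * d ∧
        G.I a ⊆ G.I r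
      let P : V → Finset (ι → Bool) := fun a =>
        (lang (ctx G a) (.inr r) ×ˢ lang G a).image fun p => join p.1 p.2
      have hcov : lang G r ⊆ A.biUnion P := by
        intro x hx
        rw [mem_lang] at hx
        obtain ⟨a, h1, h2, h3, y, z, hy, hz, rfl⟩ := split hd hx hc
        rw [mem_biUnion]
        refine ⟨a, by simp only [A, mem_filter, mem_univ, true_and]; exact ⟨h1, h2, h3⟩, ?_⟩
        simp only [P, mem_image, mem_product, mem_lang]
        exact ⟨(y, z), ⟨hy, hz⟩, rfl⟩
      have hP : ∀ a ∈ A, (P a).card ≤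
          ((4 * d) ^ (j + 1) * (2 * Fintype.card V) ^ j * 2 ^ (j * j)) * (4 * d) := by
        intro a ha
        simp only [A, mem_filter, mem_univ, true_and] at ha
        obtain ⟨h1, h2, h3⟩ := ha
        refine card_image_le.trans ?_
        rw [card_product]
        rcases (lang (ctx G a) (.inr r)).eq_empty_or_nonempty with h0 | ⟨y₀, hy₀⟩
        · rw [h0]; simp
        rcases (lang G a).eq_empty_or_nonempty with h0 | ⟨z₀, hz₀⟩
        · rw [h0]; simp
        rw [mem_lang] at hy₀ hz₀
        have sy : ∀ y, Gen (ctx G a) (.inr r) y → ∀ i, y i = true → i ∉ G.I a := by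
          intro y hy i hi
          have := hy.supp i hi
          exact (mem_sdiff.1 this).2
        refine Nat.mul_le_mul ?_ ?_
        · have key := ih (V ⊕ V) (ctx G a) (.inr r) ?_ ?_
          · rw [Fintype.card_sum, ← two_mul] at key
            exact key
          · show (G.I r \ G.I a).card ≤ _
            rw [card_sdiff_of_subset h3]
            have e : (j + 1) * (d + 1) = j * (d + 1) + (d + 1) := by ring
            omega
          · intro x hx y hy hxy
            rw [mem_lang] at hx hy
            refine (hF (join x z₀) ((mem_lang _ _ _).2 (plug hx hz₀)) (join y z₀)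
              ((mem_lang _ _ _).2 (plug hy hz₀)) ?_).trans (hammingDist_join_le x y z₀)
            intro h
            exact hxy (join_inj (sy x hx) (sy y hy) (fun i => hz₀.supp i) h)
        · refine plotkin2 hd (G.I a) h2 _ ?_ ?_
          · intro x hx y hy hxy
            rw [mem_lang] at hx hy
            refine (hF (join y₀ x) ((mem_lang _ _ _).2 (plug hy₀ hx)) (join y₀ y)
              ((mem_lang _ _ _).2 (plug hy₀ hy)) ?_).trans ?_
            · intro h
              rw [join_comm y₀ x, join_comm y₀ y] at h
              refine hxy (join_inj (J := univ \ G.I a) ?_ ?_ ?_ h)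
              · intro i hi h'; exact (mem_sdiff.1 h').2 (hx.supp i hi)
              · intro i hi h'; exact (mem_sdiff.1 h').2 (hy.supp i hi)
              · intro i hi; exact mem_sdiff.2 ⟨mem_univ _, sy y₀ hy₀ i hi⟩
            · rw [join_comm y₀ x, join_comm y₀ y]
              exact hammingDist_join_le x y y₀
          · intro x hx y hy i hi
            rw [mem_lang] at hx hy
            have h1 : x i = false := by
              by_contra h; exact hi (hx.supp i (by simpa using h))
            have h2 : y i = false := by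
              by_contra h; exact hi (hy.supp i (by simpa using h))
            rw [h1, h2]
      calc (lang G r).card ≤ (A.biUnion P).card := card_le_card hcov
        _ ≤ A.card * (((4 * d) ^ (j + 1) * (2 * Fintype.card V) ^ j * 2 ^ (j * j)) * (4 * d)) :=
            card_biUnion_le_card_mul _ _ _ hP
        _ ≤ Fintype.card V *
            (((4 * d) ^ (j + 1) * (2 * Fintype.card V) ^ j * 2 ^ (j * j)) * (4 * d)) :=
            Nat.mul_le_mul_right _ (card_le_univ _)
        _ = (4 * d) ^ (j + 1 + 1) * Fintype.card V ^ (j + 1) * 2 ^ (j + j * j) := by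
            rw [mul_pow, pow_add 2 j (j * j)]; ring
        _ ≤ _ := Nat.mul_le_mul_left _ (Nat.pow_le_pow_right (by norm_num) (by nlinarith))

end Pool.Agent.Q163.DC
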